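import Mathlib

/-!
# MP_d4bf6a_co: graphs with equidistant number 3

`ex_eq(n; 3) ≤ 4 n`, with equality for `17 ∣ n`, and `ex_eq(n; 3) / n → 4`.
-/

set_option autoImplicit false
namespace Pool.Agent.Results.MP_d4bf6a_co.EquidistantThree
open Finset

lemma ramsey34 {α : Type*} [Fintype α] [DecidableEq α] (H : SimpleGraph α) [DecidableRel H.Adj]
    (hα : Fintype.card α = 9)
    (h3 : ∀ x y z, H.Adj x y → H.Adj x z → H.Adj y z → False)
    (h4 : ∀ S : Finset α, S.card = 4 → ∃ x ∈ S, ∃ y ∈ S, H.Adj x y) : False := by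
  have hN : ∀ x, H.degree x ≤ 3 := by
    intro x
    by_contra hc
    rw [← SimpleGraph.card_neighborFinset_eq_degree] at hc
    obtain ⟨S, hS, hS4⟩ := Finset.exists_subset_card_eq (s := H.neighborFinset x) (n := 4) (by omega)
    obtain ⟨y, hy, z, hz, hyz⟩ := h4 S hS4
    have h1 := (H.mem_neighborFinset x y).1 (hS hy)
    have h2 := (H.mem_neighborFinset x z).1 (hS hz)
    exact h3 x y z h1 h2 hyz
  have hM : ∀ x, (univ.filter fun y => y ≠ x ∧ ¬ H.Adj x y).card ≤ 5 := by
    intro x
    by_contra hc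
    set M := univ.filter fun y => y ≠ x ∧ ¬ H.Adj x y with hMdef
    have hMm : ∀ {y}, y ∈ M → y ≠ x ∧ ¬ H.Adj x y := fun h => (Finset.mem_filter.1 h).2
    obtain ⟨y, hy⟩ : M.Nonempty := Finset.card_pos.1 (by omega)
    have hAB : ((M.erase y).filter fun z => H.Adj y z).card +
        ((M.erase y).filter fun z => ¬ H.Adj y z).card = (M.erase y).card :=
      Finset.card_filter_add_card_filter_not _
    have hMe : (M.erase y).card = M.card - 1 := Finset.card_erase_of_mem hy
    by_cases hA : 3 ≤ ((M.erase y).filter fun z => H.Adj y z).card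
    · obtain ⟨S, hS, hS3⟩ := Finset.exists_subset_card_eq hA
      have hSM : ∀ {z}, z ∈ S → z ∈ M ∧ H.Adj y z := fun h =>
        ⟨Finset.mem_of_mem_erase (Finset.mem_filter.1 (hS h)).1, (Finset.mem_filter.1 (hS h)).2⟩
      have hx : x ∉ S := fun h => (hMm (hSM h).1).1 rfl
      obtain ⟨p, hp, q, hq, hpq⟩ := h4 (insert x S) (by rw [Finset.card_insert_of_notMem hx, hS3])
      rcases Finset.mem_insert.1 hp with hp1 | hp1
      · rcases Finset.mem_insert.1 hq with hq1 | hq1
        · rw [hp1, hq1] at hpq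
          exact H.irrefl hpq
        · rw [hp1] at hpq
          exact (hMm (hSM hq1).1).2 hpq
      · rcases Finset.mem_insert.1 hq with hq1 | hq1
        · rw [hq1] at hpq
          exact (hMm (hSM hp1).1).2 hpq.symm
        · exact h3 y p q (hSM hp1).2 (hSM hq1).2 hpq
    · have hB : 3 ≤ ((M.erase y).filter fun z => ¬ H.Adj y z).card := by omega
      obtain ⟨S, hS, hS3⟩ := Finset.exists_subset_card_eq hB
      have hSM : ∀ {z}, z ∈ S → z ∈ M ∧ z ≠ y ∧ ¬ H.Adj y z := fun h =>
        ⟨Finset.mem_of_mem_erase (Finset.mem_filter.1 (hS h)).1,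
          Finset.ne_of_mem_erase (Finset.mem_filter.1 (hS h)).1, (Finset.mem_filter.1 (hS h)).2⟩
      have hall : ∀ p ∈ S, ∀ q ∈ S, p ≠ q → H.Adj p q := by
        intro p hp q hq hpq
        by_contra hn
        have h1 := hSM hp
        have h2 := hSM hq
        have h1' := hMm h1.1
        have h2' := hMm h2.1
        have hy' := hMm hy
        obtain ⟨u, hu, v, hv, huv⟩ := h4 {x, y, p, q} (by
          rw [Finset.card_insert_of_notMem, Finset.card_insert_of_notMem,
            Finset.card_insert_of_notMem, Finset.card_singleton]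
          · simpa using hpq
          · simp only [Finset.mem_insert, Finset.mem_singleton, not_or]
            exact ⟨h1.2.1.symm, h2.2.1.symm⟩
          · simp only [Finset.mem_insert, Finset.mem_singleton, not_or]
            exact ⟨hy'.1.symm, h1'.1.symm, h2'.1.symm⟩)
        simp only [Finset.mem_insert, Finset.mem_singleton] at hu hv
        have := H.loopless
        rcases hu with rfl | rfl | rfl | rfl <;> rcases hv with rfl | rfl | rfl | rfl
        · exact H.irrefl huv
        · exact hy'.2 huv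
        · exact h1'.2 huv
        · exact h2'.2 huv
        · exact hy'.2 huv.symm
        · exact H.irrefl huv
        · exact h1.2.2 huv
        · exact h2.2.2 huv
        · exact h1'.2 huv.symm
        · exact h1.2.2 huv.symm
        · exact H.irrefl huv
        · exact hn huv
        · exact h2'.2 huv.symm
        · exact h2.2.2 huv.symm
        · exact hn huv.symm
        · exact H.irrefl huv
      obtain ⟨p, q, r, hpq, hpr, hqr, rfl⟩ := Finset.card_eq_three.1 hS3
      exact h3 p q r (hall p (by simp) q (by simp) hpq) (hall p (by simp) r (by simp) hpr)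
        (hall q (by simp) r (by simp) hqr)
  have hdeg : ∀ x, H.degree x = 3 := by
    intro x
    have e : (univ : Finset α) = insert x (H.neighborFinset x ∪
        univ.filter fun y => y ≠ x ∧ ¬ H.Adj x y) := by
      ext y
      simp only [mem_univ, mem_insert, mem_union, SimpleGraph.mem_neighborFinset, mem_filter,
        true_and, true_iff]
      tauto
    have h1 : (univ : Finset α).card ≤ (H.neighborFinset x ∪
        univ.filter fun y => y ≠ x ∧ ¬ H.Adj x y).card + 1 := by
      conv_lhs => rw [e]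
      exact Finset.card_insert_le _ _
    have h2 := Finset.card_union_le (H.neighborFinset x) (univ.filter fun y => y ≠ x ∧ ¬ H.Adj x y)
    rw [SimpleGraph.card_neighborFinset_eq_degree] at h2
    rw [Finset.card_univ, hα] at h1
    have h3 := hN x
    have h4 := hM x
    omega
  have hs := H.sum_degrees_eq_twice_card_edges
  simp only [hdeg, Finset.sum_const, Finset.card_univ, hα, smul_eq_mul] at hs
  omega

/-- `S` is equidistant in `G`: all distances between distinct elements are the same `k ≥ 1`.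
(`G.dist u v` is `0` for vertices in different components, so `G.dist u v = k ≥ 1` says that `u, v`
are at the finite distance `k`.) -/
def IsEquidistant {V : Type*} (G : SimpleGraph V) (S : Finset V) : Prop :=
  ∃ k : ℕ, 1 ≤ k ∧ ∀ u ∈ S, ∀ v ∈ S, u ≠ v → G.dist u v = k

/-- `eq(G) = a`. -/
def HasEqNumber {V : Type*} (G : SimpleGraph V) (a : ℕ) : Prop :=
  IsGreatest {c : ℕ | ∃ S : Finset V, IsEquidistant G S ∧ S.card = c} a

/-- `ex_eq(n; a)`: the maximum number of edges of a graph of order `n` with `eq(G) = a`. -/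
noncomputable def exEq (n a : ℕ) : ℕ :=
  sSup {e : ℕ | ∃ G : SimpleGraph (Fin n), HasEqNumber G a ∧ G.edgeSet.ncard = e}

/-! ### Upper bound -/

lemma dist_two {V : Type*} {G : SimpleGraph V} {v x y : V} (hx : G.Adj v x) (hy : G.Adj v y)
    (hxy : x ≠ y) (hn : ¬ G.Adj x y) : G.dist x y = 2 := by
  have hr : G.Reachable x y := hx.symm.reachable.trans hy.reachable
  have h1 : G.dist x y ≤ 2 := by
    have := SimpleGraph.dist_le (SimpleGraph.Walk.cons hx.symm (SimpleGraph.Walk.cons hy .nil))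
    simpa using this
  have h2 : G.dist x y ≠ 0 := fun h => hxy (hr.dist_eq_zero_iff.1 h)
  have h3 : G.dist x y ≠ 1 := fun h => hn (SimpleGraph.dist_eq_one_iff_adj.1 h)
  omega

lemma no_clique {V : Type*} {G : SimpleGraph V} {a : ℕ} (h : HasEqNumber G a) (S : Finset V)
    (hS : ∀ u ∈ S, ∀ v ∈ S, u ≠ v → G.Adj u v) : S.card ≤ a :=
  h.2 ⟨S, ⟨1, le_rfl, fun u hu v hv huv => SimpleGraph.dist_eq_one_iff_adj.2 (hS u hu v hv huv)⟩, rfl⟩

lemma no_indep {V : Type*} {G : SimpleGraph V} {a : ℕ} (h : HasEqNumber G a) (v : V) (S : Finset V)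
    (hv : ∀ u ∈ S, G.Adj v u) (hS : ∀ u ∈ S, ∀ w ∈ S, ¬ G.Adj u w) : S.card ≤ a :=
  h.2 ⟨S, ⟨2, by norm_num, fun u hu w hw huw => dist_two (hv u hu) (hv w hw) huw (hS u hu w hw)⟩, rfl⟩

lemma degree_le {n : ℕ} {G : SimpleGraph (Fin n)} [DecidableRel G.Adj] (h : HasEqNumber G 3)
    (v : Fin n) : G.degree v ≤ 8 := by
  by_contra hc
  rw [← SimpleGraph.card_neighborFinset_eq_degree] at hc
  obtain ⟨T, hT, hT9⟩ := Finset.exists_subset_card_eq (s := G.neighborFinset v) (n := 9) (by omega)
  have hTv : ∀ {x}, x ∈ T → G.Adj v x := fun hx => (G.mem_neighborFinset v _).1 (hT hx)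
  refine ramsey34 (α := T) (G.comap fun x : T => (x : Fin n)) (by simpa using hT9) ?_ ?_
  · rintro x y z hxy hxz hyz
    simp only [SimpleGraph.comap_adj] at hxy hxz hyz
    have hx := hTv x.2
    have hy := hTv y.2
    have hz := hTv z.2
    have h1 := no_clique h {v, (x : Fin n), (y : Fin n), (z : Fin n)} (by
      intro u hu w hw huw
      simp only [Finset.mem_insert, Finset.mem_singleton] at hu hw
      rcases hu with rfl | rfl | rfl | rfl <;> rcases hw with rfl | rfl | rfl | rfl <;>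
        first
        | exact absurd rfl huw
        | assumption
        | (apply SimpleGraph.Adj.symm; assumption))
    rw [Finset.card_insert_of_notMem, Finset.card_insert_of_notMem,
            Finset.card_insert_of_notMem, Finset.card_singleton] at h1
    · omega
    · simpa using hyz.ne
    · simp only [Finset.mem_insert, Finset.mem_singleton, not_or]
      exact ⟨hxy.ne, hxz.ne⟩
    · simp only [Finset.mem_insert, Finset.mem_singleton, not_or]
      exact ⟨hx.ne, hy.ne, hz.ne⟩
  · intro S hS4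
    by_contra hno
    push Not at hno
    have h1 := no_indep h v (S.map ⟨Subtype.val, Subtype.val_injective⟩) (by
      intro u hu
      obtain ⟨w, -, rfl⟩ := Finset.mem_map.1 hu
      exact hTv w.2) (by
      intro u hu w hw
      obtain ⟨u', hu', rfl⟩ := Finset.mem_map.1 hu
      obtain ⟨w', hw', rfl⟩ := Finset.mem_map.1 hw
      exact hno u' hu' w' hw')
    rw [Finset.card_map] at h1
    omega

lemma upper {n : ℕ} {G : SimpleGraph (Fin n)} (h : HasEqNumber G 3) : G.edgeSet.ncard ≤ 4 * n := by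
  classical
  have h1 := G.sum_degrees_eq_twice_card_edges
  have h2 : ∑ v, G.degree v ≤ ∑ _v : Fin n, 8 := Finset.sum_le_sum fun v _ => degree_le h v
  rw [h1, Finset.sum_const, Finset.card_univ, Fintype.card_fin, smul_eq_mul] at h2
  rw [← SimpleGraph.coe_edgeFinset, Set.ncard_coe_finset]
  omega

/-! ### Lower bound -/

/-- nonzero squares modulo 17 -/
def Q (d : ZMod 17) : Bool := d = 1 ∨ d = 2 ∨ d = 4 ∨ d = 8 ∨ d = 16 ∨ d = 15 ∨ d = 13 ∨ d = 9

lemma Q_neg : ∀ d : ZMod 17, Q (-d) = Q d := by decide +kernel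
lemma Q_zero : Q 0 = false := by decide +kernel

lemma Q_clique : ∀ a b c : ZMod 17, ¬ (Q a = true ∧ Q b = true ∧ Q (b - a) = true ∧ Q c = true ∧
    Q (c - a) = true ∧ Q (c - b) = true) := by decide +kernel

lemma Q_indep : ∀ a b c : ZMod 17, ¬ (a ≠ 0 ∧ Q a = false ∧ b ≠ 0 ∧ Q b = false ∧ b - a ≠ 0 ∧
    Q (b - a) = false ∧ c ≠ 0 ∧ Q c = false ∧ c - a ≠ 0 ∧ Q (c - a) = false ∧ c - b ≠ 0 ∧
      Q (c - b) = false) := by decide +kernel

/-- the adjacency relation of `m` disjoint copies of the Paley graph with `r` isolated vertices -/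
def adjP {m r : ℕ} : ((Fin m × ZMod 17) ⊕ Fin r) → ((Fin m × ZMod 17) ⊕ Fin r) → Prop
  | .inl x, .inl y => x.1 = y.1 ∧ Q (x.2 - y.2) = true
  | _, _ => False

lemma adjP_symm {m r : ℕ} {x y : (Fin m × ZMod 17) ⊕ Fin r} (h : adjP x y) : adjP y x := by
  rcases x with x | x <;> rcases y with y | y
  · exact ⟨h.1.symm, by rw [← Q_neg, neg_sub]; exact h.2⟩
  · exact h
  · exact h
  · exact h

lemma adjP_irrefl {m r : ℕ} (x : (Fin m × ZMod 17) ⊕ Fin r) : ¬ adjP x x := by
  rcases x with x | x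
  · rintro ⟨-, h⟩
    rw [sub_self, Q_zero] at h
    exact Bool.false_ne_true h
  · exact fun h => h

/-- the block of a vertex -/
def blk {m r : ℕ} : ((Fin m × ZMod 17) ⊕ Fin r) → Fin m ⊕ Fin r
  | .inl x => .inl x.1
  | .inr t => .inr t

lemma blk_eq {m r : ℕ} {x y : (Fin m × ZMod 17) ⊕ Fin r} (h : adjP x y) : blk x = blk y := by
  rcases x with x | x <;> rcases y with y | y
  · exact congrArg Sum.inl h.1
  · exact h.elim
  · exact h.elim
  · exact h.elim

/-- the graph on `Fin n` -/
def GP {n m r : ℕ} (φ : Fin n ≃ (Fin m × ZMod 17) ⊕ Fin r) : SimpleGraph (Fin n) where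
  Adj x y := adjP (φ x) (φ y)
  symm := ⟨fun _ _ h => adjP_symm h⟩
  loopless := ⟨fun _ h => adjP_irrefl _ h⟩

lemma reach {n m r : ℕ} (φ : Fin n ≃ (Fin m × ZMod 17) ⊕ Fin r) {x y : Fin n}
    (h : (GP φ).Reachable x y) : blk (φ x) = blk (φ y) := by
  obtain ⟨w⟩ := h
  induction w with
  | nil => rfl
  | cons h _ ih => exact (blk_eq h).trans ih

/-- a second coordinate -/
def crd {m r : ℕ} : ((Fin m × ZMod 17) ⊕ Fin r) → ZMod 17
  | .inl x => x.2
  | .inr _ => 0

lemma same {m r : ℕ} {x y : (Fin m × ZMod 17) ⊕ Fin r} (hb : blk x = blk y) (hxy : x ≠ y) :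
    crd x - crd y ≠ 0 ∧ (adjP x y ↔ Q (crd x - crd y) = true) := by
  rcases x with x | x <;> rcases y with y | y
  · have hb : x.1 = y.1 := Sum.inl_injective hb
    refine ⟨fun h => hxy ?_, ⟨fun h => h.2, fun h => ⟨hb, h⟩⟩⟩
    rw [sub_eq_zero] at h
    exact congrArg Sum.inl (Prod.ext hb h)
  · exact absurd hb (by simp [blk])
  · exact absurd hb (by simp [blk])
  · exact absurd (congrArg Sum.inr (Sum.inr_injective hb)) hxy

lemma lower_card {n m r : ℕ} (φ : Fin n ≃ (Fin m × ZMod 17) ⊕ Fin r) (S : Finset (Fin n))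
    (hS : IsEquidistant (GP φ) S) : S.card ≤ 3 := by
  by_contra hc
  obtain ⟨T, hT, hT4⟩ := Finset.exists_subset_card_eq (s := S) (n := 4) (by omega)
  obtain ⟨x, T', hx, rfl, hT3⟩ := Finset.card_eq_succ.1 hT4
  obtain ⟨y, z, w, hyz, hyw, hzw, rfl⟩ := Finset.card_eq_three.1 hT3
  simp only [Finset.mem_insert, Finset.mem_singleton, not_or] at hx
  obtain ⟨k, hk, hd⟩ := hS
  have hmx : x ∈ S := hT (by simp)
  have hmy : y ∈ S := hT (by simp)
  have hmz : z ∈ S := hT (by simp)
  have hmw : w ∈ S := hT (by simp)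
  have hpair : ∀ u ∈ S, ∀ v ∈ S, u ≠ v → crd (φ u) - crd (φ v) ≠ 0 ∧
      ((k = 1) ↔ Q (crd (φ u) - crd (φ v)) = true) := by
    intro u hu v hv huv
    have h1 := hd u hu v hv huv
    have hr : (GP φ).Reachable u v := by
      by_contra hn
      rw [SimpleGraph.dist_eq_zero_of_not_reachable hn] at h1
      omega
    have h2 := same (reach φ hr) (fun h => huv (φ.injective h))
    refine ⟨h2.1, ?_⟩
    rw [← h2.2, ← h1, SimpleGraph.dist_eq_one_iff_adj]
    rfl
  have h10 := hpair y hmy x hmx (Ne.symm hx.1)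
  have h20 := hpair z hmz x hmx (Ne.symm hx.2.1)
  have h30 := hpair w hmw x hmx (Ne.symm hx.2.2)
  have h21 := hpair z hmz y hmy hyz.symm
  have h31 := hpair w hmw y hmy hyw.symm
  have h32 := hpair w hmw z hmz hzw.symm
  have e21 : crd (φ z) - crd (φ y) = (crd (φ z) - crd (φ x)) - (crd (φ y) - crd (φ x)) := by ring
  have e31 : crd (φ w) - crd (φ y) = (crd (φ w) - crd (φ x)) - (crd (φ y) - crd (φ x)) := by ring
  have e32 : crd (φ w) - crd (φ z) = (crd (φ w) - crd (φ x)) - (crd (φ z) - crd (φ x)) := by ring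
  rw [e21] at h21
  rw [e31] at h31
  rw [e32] at h32
  by_cases hk1 : k = 1
  · exact Q_clique _ _ _ ⟨h10.2.1 hk1, h20.2.1 hk1, h21.2.1 hk1, h30.2.1 hk1, h31.2.1 hk1, h32.2.1 hk1⟩
  · have hf : ∀ {b : Bool}, ((k = 1) ↔ b = true) → b = false := fun {b} h => by
      cases b
      · rfl
      · exact absurd (h.2 rfl) hk1
    exact Q_indep _ _ _ ⟨h10.1, hf h10.2, h20.1, hf h20.2, h21.1, hf h21.2, h30.1, hf h30.2, h31.1,
      hf h31.2, h32.1, hf h32.2⟩

lemma lower_eq {n m r : ℕ} (hm : 0 < m) (φ : Fin n ≃ (Fin m × ZMod 17) ⊕ Fin r) :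
    HasEqNumber (GP φ) 3 := by
  refine ⟨?_, ?_⟩
  · let p : ZMod 17 → Fin n := fun j => φ.symm (.inl (⟨0, hm⟩, j))
    have hp : ∀ j j', Q (j - j') = true → (GP φ).Adj (p j) (p j') := by
      intro j j' h
      change adjP (φ (p j)) (φ (p j'))
      simp only [p, Equiv.apply_symm_apply]
      exact ⟨rfl, h⟩
    have h01 := hp 0 1 (by decide +kernel)
    have h02 := hp 0 2 (by decide +kernel)
    have h12 := hp 1 2 (by decide +kernel)
    refine ⟨{p 0, p 1, p 2}, ⟨1, le_rfl, ?_⟩, ?_⟩
    · intro u hu w hw huw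
      rw [SimpleGraph.dist_eq_one_iff_adj]
      simp only [Finset.mem_insert, Finset.mem_singleton] at hu hw
      rcases hu with rfl | rfl | rfl <;> rcases hw with rfl | rfl | rfl <;>
        first
        | exact absurd rfl huw
        | assumption
        | (apply SimpleGraph.Adj.symm; assumption)
    · rw [Finset.card_insert_of_notMem, Finset.card_insert_of_notMem, Finset.card_singleton]
      · simpa using h12.ne
      · simp only [Finset.mem_insert, Finset.mem_singleton, not_or]
        exact ⟨h01.ne, h02.ne⟩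
  · rintro c ⟨S, hS, rfl⟩
    exact lower_card φ S hS

lemma lower_edges {n m r : ℕ} (φ : Fin n ≃ (Fin m × ZMod 17) ⊕ Fin r) :
    (GP φ).edgeSet.ncard = 68 * m := by
  classical
  have h1 := (GP φ).sum_degrees_eq_twice_card_edges
  have hdeg : ∀ v, (GP φ).degree v = ∑ y : (Fin m × ZMod 17) ⊕ Fin r, if adjP (φ v) y then 1 else 0 := by
    intro v
    rw [← SimpleGraph.card_neighborFinset_eq_degree, SimpleGraph.neighborFinset_eq_filter,
      Finset.card_filter, ← Equiv.sum_comp φ]
    rfl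
  have h2 : ∑ v, (GP φ).degree v = ∑ x : (Fin m × ZMod 17) ⊕ Fin r,
      ∑ y : (Fin m × ZMod 17) ⊕ Fin r, if adjP x y then 1 else 0 := by
    simp only [hdeg]
    exact Equiv.sum_comp φ fun x => ∑ y : (Fin m × ZMod 17) ⊕ Fin r, if adjP x y then 1 else 0
  have hQ : ∀ j : ZMod 17, ∑ j' : ZMod 17, (if Q (j - j') = true then 1 else 0) = 8 := by
    decide +kernel
  have h3 : ∑ x : (Fin m × ZMod 17) ⊕ Fin r,
      ∑ y : (Fin m × ZMod 17) ⊕ Fin r, (if adjP x y then 1 else 0) = m * (17 * 8) := by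
    rw [Fintype.sum_sum_type]
    have e1 : ∀ x : Fin m × ZMod 17, ∑ y : (Fin m × ZMod 17) ⊕ Fin r,
        (if adjP (Sum.inl x) y then 1 else 0) = 8 := by
      intro x
      rw [Fintype.sum_sum_type, Fintype.sum_prod_type]
      have e2 : ∀ (i : Fin m), ∑ j : ZMod 17, (if adjP (r := r) (Sum.inl x) (Sum.inl (i, j)) then 1 else 0)
          = if x.1 = i then 8 else 0 := by
        intro i
        by_cases hi : x.1 = i
        · rw [if_pos hi, ← hQ x.2]
          refine Finset.sum_congr rfl fun j _ => ?_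
          simp only [adjP, hi, true_and]
        · rw [if_neg hi]
          refine Finset.sum_eq_zero fun j _ => ?_
          simp only [adjP, hi, false_and, if_false]
      simp only [e2]
      simp [adjP]
    have e3 : ∀ x : Fin r, ∑ y : (Fin m × ZMod 17) ⊕ Fin r,
        (if adjP (Sum.inr x) y then 1 else 0) = 0 := by
      intro x
      refine Finset.sum_eq_zero fun y _ => ?_
      rw [if_neg]
      exact fun h => by rcases y with y | y <;> exact h
    simp only [e1, e3]
    simp [ZMod.card]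
    ring
  rw [← SimpleGraph.coe_edgeFinset, Set.ncard_coe_finset]
  rw [h2, h3] at h1
  omega

lemma exists_graph {n : ℕ} (hn : 17 ≤ n) : ∃ G : SimpleGraph (Fin n), HasEqNumber G 3 ∧
    G.edgeSet.ncard = 68 * (n / 17) := by
  let φ : Fin n ≃ (Fin (n / 17) × ZMod 17) ⊕ Fin (n % 17) := Fintype.equivOfCardEq (by
    simp [ZMod.card]; omega)
  exact ⟨GP φ, lower_eq (by omega) φ, lower_edges φ⟩

/-- `ex_eq(n; 3)` is at most `4 n` and at least `68 ⌊n / 17⌋` for `n ≥ 17`; it equals `4 n` when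
`17 ∣ n`, `n ≥ 1`; and `ex_eq(n; 3) / n → 4`. -/
theorem result :
    (∀ n : ℕ, ∀ G : SimpleGraph (Fin n), HasEqNumber G 3 → G.edgeSet.ncard ≤ 4 * n) ∧
    (∀ n : ℕ, 17 ≤ n → 68 * (n / 17) ≤ exEq n 3 ∧ exEq n 3 ≤ 4 * n) ∧
    (∀ m : ℕ, 1 ≤ m → exEq (17 * m) 3 = 4 * (17 * m)) ∧
    Filter.Tendsto (fun n : ℕ => (exEq n 3 : ℝ) / n) Filter.atTop (nhds 4) := by
  have hb : ∀ n, BddAbove {e : ℕ | ∃ G : SimpleGraph (Fin n), HasEqNumber G 3 ∧ G.edgeSet.ncard = e} :=
    fun n => ⟨4 * n, by rintro e ⟨G, hG, rfl⟩; exact upper hG⟩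
  have h2 : ∀ n : ℕ, 17 ≤ n → 68 * (n / 17) ≤ exEq n 3 ∧ exEq n 3 ≤ 4 * n := by
    intro n hn
    obtain ⟨G, hG, hGe⟩ := exists_graph hn
    refine ⟨le_csSup (hb n) ⟨G, hG, hGe⟩, csSup_le ⟨_, G, hG, hGe⟩ ?_⟩
    rintro e ⟨G, hG, rfl⟩
    exact upper hG
  refine ⟨fun n G hG => upper hG, h2, fun m hm => ?_, ?_⟩
  · have := h2 (17 * m) (by omega)
    have e : 17 * m / 17 = m := by omega
    rw [e] at this
    omega
  · have hlow : Filter.Tendsto (fun n : ℕ => (4 : ℝ) - 64 / n) Filter.atTop (nhds (4 - 0)) :=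
      tendsto_const_nhds.sub (tendsto_const_div_atTop_nhds_zero_nat 64)
    rw [sub_zero] at hlow
    refine tendsto_of_tendsto_of_tendsto_of_le_of_le' hlow tendsto_const_nhds ?_ ?_
    · filter_upwards [Filter.eventually_ge_atTop 17] with n hn
      have hn0 : (0 : ℝ) < n := by exact_mod_cast (by omega : 0 < n)
      have h := (h2 n hn).1
      have h' : 4 * n ≤ exEq n 3 + 64 := by omega
      have h'' : (4 : ℝ) * n ≤ exEq n 3 + 64 := by exact_mod_cast h'
      rw [le_div_iff₀ hn0, sub_mul, div_mul_cancel₀ _ hn0.ne']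
      linarith
    · filter_upwards [Filter.eventually_ge_atTop 17] with n hn
      have hn0 : (0 : ℝ) < n := by exact_mod_cast (by omega : 0 < n)
      rw [div_le_iff₀ hn0]
      exact_mod_cast (h2 n hn).2

end Pool.Agent.Results.MP_d4bf6a_co.EquidistantThree
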