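import Mathlib

/-!
# MP_d4bf6a_co: graphs with equidistant number 2

`ex_eq(n; 2) = n` for all `n ≥ 4`, `n ≠ 6`.
-/

set_option autoImplicit false

namespace Pool.Agent.Results.MP_d4bf6a_co.EquidistantTwo

open Finset

/-- `S` is equidistant in `G`: all distances between distinct elements are the same `k ≥ 1`.
(`G.dist u v` is `0` for vertices in different components, so `G.dist u v = k ≥ 1` says that `u, v`
are at the finite distance `k`.) -/
def IsEquidistant {V : Type*} (G : SimpleGraph V) (S : Finset V) : Prop :=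
  ∃ k : ℕ, 1 ≤ k ∧ ∀ u ∈ S, ∀ v ∈ S, u ≠ v → G.dist u v = k

/-- `eq(G) = a`. -/
def HasEqNumber {V : Type*} (G : SimpleGraph V) (a : ℕ) : Prop :=
  IsGreatest {c : ℕ | ∃ S : Finset V, IsEquidistant G S ∧ S.card = c} a

/-- `ex_eq(n; a)`: the maximum number of edges of a graph of order `n` with `eq(G) = a`. -/
noncomputable def exEq (n a : ℕ) : ℕ :=
  sSup {e : ℕ | ∃ G : SimpleGraph (Fin n), HasEqNumber G a ∧ G.edgeSet.ncard = e}

/-! ### Upper bound -/

lemma dist_two {V : Type*} {G : SimpleGraph V} {v x y : V} (hx : G.Adj v x) (hy : G.Adj v y)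
    (hxy : x ≠ y) (hn : ¬ G.Adj x y) : G.dist x y = 2 := by
  have hr : G.Reachable x y := hx.symm.reachable.trans hy.reachable
  have h1 : G.dist x y ≤ 2 := by
    have := SimpleGraph.dist_le (SimpleGraph.Walk.cons hx.symm (SimpleGraph.Walk.cons hy .nil))
    simpa using this
  have h2 : G.dist x y ≠ 0 := fun h => hxy (hr.dist_eq_zero_iff.1 h)
  have h3 : G.dist x y ≠ 1 := fun h => hn (SimpleGraph.dist_eq_one_iff_adj.1 h)
  omega

lemma of_dist_two {V : Type*} {G : SimpleGraph V} {x y : V} (h : G.dist x y = 2) :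
    ∃ v, G.Adj v x ∧ G.Adj v y := by
  have hr : G.Reachable x y := by
    by_contra hn
    rw [SimpleGraph.dist_eq_zero_of_not_reachable hn] at h
    omega
  obtain ⟨p, hp⟩ := hr.exists_walk_length_eq_dist
  rw [h] at hp
  cases p with
  | nil => simp at hp
  | cons h1 p =>
    cases p with
    | nil => simp at hp
    | cons h2 p =>
      cases p with
      | nil => exact ⟨_, h1.symm, h2⟩
      | cons h3 p => simp at hp

lemma degree_le {n : ℕ} {G : SimpleGraph (Fin n)} [DecidableRel G.Adj] (h : HasEqNumber G 2)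
    (v : Fin n) : G.degree v ≤ 2 := by
  by_contra hc
  rw [← SimpleGraph.card_neighborFinset_eq_degree] at hc
  have htri : ∀ x y, G.Adj v x → G.Adj v y → G.Adj x y → False := by
    intro x y hx hy hxy
    have h1 : ({v, x, y} : Finset (Fin n)).card ≤ 2 := h.2 ⟨{v, x, y}, ⟨1, le_rfl, by
      intro u hu w hw huw
      rw [SimpleGraph.dist_eq_one_iff_adj]
      simp only [Finset.mem_insert, Finset.mem_singleton] at hu hw
      rcases hu with rfl | rfl | rfl <;> rcases hw with rfl | rfl | rfl <;>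
        first
        | exact absurd rfl huw
        | assumption
        | (apply SimpleGraph.Adj.symm; assumption)⟩, rfl⟩
    rw [Finset.card_insert_of_notMem, Finset.card_insert_of_notMem, Finset.card_singleton] at h1
    · omega
    · simpa using hxy.ne
    · simp only [Finset.mem_insert, Finset.mem_singleton, not_or]
      exact ⟨hx.ne, hy.ne⟩
  have h1 : (G.neighborFinset v).card ≤ 2 := h.2 ⟨G.neighborFinset v, ⟨2, by norm_num, by
    intro u hu w hw huw
    rw [SimpleGraph.mem_neighborFinset] at hu hw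
    exact dist_two hu hw huw fun huw' => htri u w hu hw huw'⟩, rfl⟩
  omega

lemma upper {n : ℕ} {G : SimpleGraph (Fin n)} (h : HasEqNumber G 2) : G.edgeSet.ncard ≤ n := by
  classical
  have h1 := G.sum_degrees_eq_twice_card_edges
  have h2 : ∑ v, G.degree v ≤ ∑ _v : Fin n, 2 := Finset.sum_le_sum fun v _ => degree_le h v
  rw [h1, Finset.sum_const, Finset.card_univ, Fintype.card_fin, smul_eq_mul] at h2
  rw [← SimpleGraph.coe_edgeFinset, Set.ncard_coe_finset]
  omega

/-! ### Lower bound -/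

/-- `u, v` have a common neighbour -/
def CN {V : Type*} (G : SimpleGraph V) (u v : V) : Prop := ∃ x, G.Adj x u ∧ G.Adj x v

/-- the patterns of an equidistant triple -/
def Pat {V : Type*} (G : SimpleGraph V) (u v w : V) : Prop :=
  (G.Adj u v ∧ G.Adj u w ∧ G.Adj v w) ∨
  ((¬ G.Adj u v ∧ ¬ G.Adj u w ∧ ¬ G.Adj v w) ∧
    ((CN G u v ∧ CN G u w ∧ CN G v w) ∨ (¬ CN G u v ∧ ¬ CN G u w ∧ ¬ CN G v w)))

open Classical in
/-- there is a good graph on `n` vertices -/
def P (n : ℕ) : Prop := ∃ (V : Type) (_ : Fintype V) (G : SimpleGraph V), Fintype.card V = n ∧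
  (∀ x, (univ.filter fun y => G.Adj x y).card = 2) ∧
  ∃ b : V → ℕ, (∀ u v, G.Adj u v → b u = b v) ∧ ∀ u v w, u ≠ v → u ≠ w → v ≠ w → b u = b v →
    b u = b w → ¬ Pat G u v w

lemma P_add {m n : ℕ} (hm : P m) (hn : P n) : P (m + n) := by
  classical
  obtain ⟨V, iV, G, hV, hG, b, hb, hp⟩ := hm
  obtain ⟨W, iW, H, hW, hH, c, hc, hq⟩ := hn
  refine ⟨V ⊕ W, inferInstance, G ⊕g H, by simp [hV, hW], ?_, Sum.elim (fun v => 2 * b v)
    (fun w => 2 * c w + 1), ?_, ?_⟩
  · rintro (x | x)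
    · rw [← hG x, Finset.card_filter, Finset.card_filter, Fintype.sum_sum_type]
      simp
    · rw [← hH x, Finset.card_filter, Finset.card_filter, Fintype.sum_sum_type]
      simp
  · rintro (u | u) (v | v) huv
    · simp only [Sum.elim_inl]
      rw [hb u v (by simpa using huv)]
    · simp at huv
    · simp at huv
    · simp only [Sum.elim_inr]
      rw [hc u v (by simpa using huv)]
  · have c1 : ∀ u v : V, CN (G ⊕g H) (.inl u) (.inl v) ↔ CN G u v := by
      intro u v
      simp [CN]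
    have c2 : ∀ u v : W, CN (G ⊕g H) (.inr u) (.inr v) ↔ CN H u v := by
      intro u v
      simp [CN]
    rintro (u | u) (v | v) (w | w) huv huw hvw h1 h2
    · simp only [Sum.elim_inl] at h1 h2
      have := hp u v w (fun h => huv (by rw [h])) (fun h => huw (by rw [h]))
        (fun h => hvw (by rw [h])) (by omega) (by omega)
      simpa [Pat, c1] using this
    all_goals try (simp only [Sum.elim_inl, Sum.elim_inr] at h1 h2; omega)
    · simp only [Sum.elim_inr] at h1 h2
      have := hq u v w (fun h => huv (by rw [h])) (fun h => huw (by rw [h]))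
        (fun h => hvw (by rw [h])) (by omega) (by omega)
      simpa [Pat, c2] using this

/-- cycles -/
def cyc (c : ℕ) (hc : (1 : ZMod c) ≠ 0) : SimpleGraph (ZMod c) where
  Adj x y := x - y = 1 ∨ y - x = 1
  symm := ⟨fun _ _ h => h.symm⟩
  loopless := ⟨fun x h => by
    rw [sub_self] at h
    exact hc (h.elim Eq.symm Eq.symm)⟩

lemma P_four : P 4 := by
  classical
  refine ⟨ZMod 4, inferInstance, cyc 4 (by decide), by simp [ZMod.card], ?_, fun _ => 0,
    fun _ _ _ => rfl, ?_⟩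
  · intro x
    have : ∀ x : ZMod 4, (univ.filter fun y : ZMod 4 => x - y = 1 ∨ y - x = 1).card = 2 := by decide
    rw [← this x]
    refine congrArg Finset.card (Finset.ext fun y => ?_)
    rw [Finset.mem_filter, Finset.mem_filter]
    rfl
  · intro u v w h1 h2 h3 _ _
    have : ∀ u v w : ZMod 4, u ≠ v → u ≠ w → v ≠ w →
      ¬ (((u - v = 1 ∨ v - u = 1) ∧ (u - w = 1 ∨ w - u = 1) ∧ (v - w = 1 ∨ w - v = 1)) ∨
        (¬ (u - v = 1 ∨ v - u = 1) ∧ ¬ (u - w = 1 ∨ w - u = 1) ∧ ¬ (v - w = 1 ∨ w - v = 1))) := by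
      decide
    intro h
    refine this u v w h1 h2 h3 ?_
    rcases h with h | h
    · exact Or.inl h
    · exact Or.inr h.1

lemma P_five : P 5 := by
  classical
  refine ⟨ZMod 5, inferInstance, cyc 5 (by decide), by simp [ZMod.card], ?_, fun _ => 0,
    fun _ _ _ => rfl, ?_⟩
  · intro x
    have : ∀ x : ZMod 5, (univ.filter fun y : ZMod 5 => x - y = 1 ∨ y - x = 1).card = 2 := by decide
    rw [← this x]
    refine congrArg Finset.card (Finset.ext fun y => ?_)
    rw [Finset.mem_filter, Finset.mem_filter]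
    rfl
  · intro u v w h1 h2 h3 _ _
    have : ∀ u v w : ZMod 5, u ≠ v → u ≠ w → v ≠ w →
      ¬ (((u - v = 1 ∨ v - u = 1) ∧ (u - w = 1 ∨ w - u = 1) ∧ (v - w = 1 ∨ w - v = 1)) ∨
        (¬ (u - v = 1 ∨ v - u = 1) ∧ ¬ (u - w = 1 ∨ w - u = 1) ∧ ¬ (v - w = 1 ∨ w - v = 1))) := by
      decide
    intro h
    refine this u v w h1 h2 h3 ?_
    rcases h with h | h
    · exact Or.inl h
    · exact Or.inr h.1

lemma P_seven : P 7 := by
  classical
  refine ⟨ZMod 7, inferInstance, cyc 7 (by decide), by simp [ZMod.card], ?_, fun _ => 0,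
    fun _ _ _ => rfl, ?_⟩
  · intro x
    have : ∀ x : ZMod 7, (univ.filter fun y : ZMod 7 => x - y = 1 ∨ y - x = 1).card = 2 := by
      decide +kernel
    rw [← this x]
    refine congrArg Finset.card (Finset.ext fun y => ?_)
    rw [Finset.mem_filter, Finset.mem_filter]
    rfl
  · intro u v w h1 h2 h3 _ _
    have hcn : ∀ u v : ZMod 7, (∃ x : ZMod 7, (x - u = 1 ∨ u - x = 1) ∧ (x - v = 1 ∨ v - x = 1)) ↔
        (u = v ∨ u - v = 2 ∨ v - u = 2) := by decide +kernel
    have : ∀ u v w : ZMod 7, u ≠ v → u ≠ w → v ≠ w →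
      ¬ (((u - v = 1 ∨ v - u = 1) ∧ (u - w = 1 ∨ w - u = 1) ∧ (v - w = 1 ∨ w - v = 1)) ∨
        ((¬ (u - v = 1 ∨ v - u = 1) ∧ ¬ (u - w = 1 ∨ w - u = 1) ∧ ¬ (v - w = 1 ∨ w - v = 1)) ∧
          (((u = v ∨ u - v = 2 ∨ v - u = 2) ∧ (u = w ∨ u - w = 2 ∨ w - u = 2) ∧
            (v = w ∨ v - w = 2 ∨ w - v = 2)) ∨
          (¬ (u = v ∨ u - v = 2 ∨ v - u = 2) ∧ ¬ (u = w ∨ u - w = 2 ∨ w - u = 2) ∧
            ¬ (v = w ∨ v - w = 2 ∨ w - v = 2))))) := by
      decide +kernel
    intro h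
    refine this u v w h1 h2 h3 ?_
    rw [← hcn, ← hcn, ← hcn]
    exact h

lemma P_all : ∀ n : ℕ, 4 ≤ n → n ≠ 6 → P n := by
  intro n
  induction n using Nat.strong_induction_on with
  | _ n ih =>
    intro h4 h6
    by_cases h : n = 4
    · rw [h]; exact P_four
    by_cases h : n = 5
    · rw [h]; exact P_five
    by_cases h : n = 7
    · rw [h]; exact P_seven
    by_cases h : n = 10
    · rw [h]; exact P_add P_five P_five
    · have := P_add (ih (n - 4) (by omega) (by omega) (by omega)) P_four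
      rwa [Nat.sub_add_cancel h4] at this

lemma exists_graph {n : ℕ} (h0 : 1 ≤ n) (h : P n) : ∃ G : SimpleGraph (Fin n), HasEqNumber G 2 ∧
    G.edgeSet.ncard = n := by
  classical
  obtain ⟨V, iV, G, hV, hG, b, hb, hp⟩ := h
  let φ : Fin n ≃ V := Fintype.equivOfCardEq (by simp [hV])
  have hreach : ∀ u v, (G.comap φ).Reachable u v → b (φ u) = b (φ v) := by
    rintro u v ⟨w⟩
    induction w with
    | nil => rfl
    | cons h _ ih => exact (hb _ _ h).trans ih
  have hdeg : ∀ v, (G.comap φ).degree v = 2 := by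
    intro v
    rw [← SimpleGraph.card_neighborFinset_eq_degree, SimpleGraph.neighborFinset_eq_filter,
      Finset.card_filter, ← hG (φ v), Finset.card_filter, ← Equiv.sum_comp φ]
    rfl
  have hcn : ∀ u v, CN (G.comap φ) u v → CN G (φ u) (φ v) := fun u v ⟨x, hx⟩ => ⟨φ x, hx⟩
  have hcn' : ∀ u v, CN G (φ u) (φ v) → CN (G.comap φ) u v := by
    rintro u v ⟨x, hx1, hx2⟩
    refine ⟨φ.symm x, ?_, ?_⟩
    · change G.Adj (φ (φ.symm x)) (φ u)
      rwa [Equiv.apply_symm_apply]
    · change G.Adj (φ (φ.symm x)) (φ v)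
      rwa [Equiv.apply_symm_apply]
  refine ⟨G.comap φ, ⟨?_, ?_⟩, ?_⟩
  · -- an edge
    have h2 := hdeg ⟨0, h0⟩
    obtain ⟨y, hy⟩ : ((G.comap φ).neighborFinset ⟨0, h0⟩).Nonempty := by
      rw [← Finset.card_pos, SimpleGraph.card_neighborFinset_eq_degree, h2]; norm_num
    rw [SimpleGraph.mem_neighborFinset] at hy
    refine ⟨{⟨0, h0⟩, y}, ⟨1, le_rfl, ?_⟩, Finset.card_pair hy.ne⟩
    intro u hu w hw huw
    rw [SimpleGraph.dist_eq_one_iff_adj]
    simp only [Finset.mem_insert, Finset.mem_singleton] at hu hw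
    rcases hu with rfl | rfl <;> rcases hw with rfl | rfl
    · exact absurd rfl huw
    · exact hy
    · exact hy.symm
    · exact absurd rfl huw
  · rintro c ⟨S, ⟨k, hk, hd⟩, rfl⟩
    by_contra hc
    obtain ⟨T, hT, hT3⟩ := Finset.exists_subset_card_eq (s := S) (n := 3) (by omega)
    obtain ⟨u, v, w, huv, huw, hvw, rfl⟩ := Finset.card_eq_three.1 hT3
    have hu : u ∈ S := hT (by simp)
    have hv : v ∈ S := hT (by simp)
    have hw : w ∈ S := hT (by simp)
    have hr : ∀ x ∈ S, ∀ y ∈ S, x ≠ y → b (φ x) = b (φ y) := by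
      intro x hx y hy hxy
      refine hreach x y ?_
      by_contra hn
      have := hd x hx y hy hxy
      rw [SimpleGraph.dist_eq_zero_of_not_reachable hn] at this
      omega
    refine hp (φ u) (φ v) (φ w) (fun h => huv (φ.injective h)) (fun h => huw (φ.injective h))
      (fun h => hvw (φ.injective h)) (hr u hu v hv huv) (hr u hu w hw huw) ?_
    have hadj : ∀ x ∈ S, ∀ y ∈ S, x ≠ y → (G.Adj (φ x) (φ y) ↔ k = 1) := by
      intro x hx y hy hxy
      rw [← hd x hx y hy hxy, SimpleGraph.dist_eq_one_iff_adj]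
      rfl
    have hcom : ∀ x ∈ S, ∀ y ∈ S, x ≠ y → k ≠ 1 → (CN G (φ x) (φ y) ↔ k = 2) := by
      intro x hx y hy hxy hk1
      refine ⟨fun h => ?_, fun h => ?_⟩
      · obtain ⟨z, hz1, hz2⟩ := hcn' x y h
        rw [← hd x hx y hy hxy]
        exact dist_two hz1 hz2 hxy fun h' => hk1 ((hadj x hx y hy hxy).1 h')
      · refine hcn x y (of_dist_two ?_)
        rw [hd x hx y hy hxy, h]
    by_cases hk1 : k = 1
    · exact Or.inl ⟨(hadj u hu v hv huv).2 hk1, (hadj u hu w hw huw).2 hk1, (hadj v hv w hw hvw).2 hk1⟩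
    · refine Or.inr ⟨⟨fun h => hk1 ((hadj u hu v hv huv).1 h), fun h => hk1 ((hadj u hu w hw huw).1 h),
        fun h => hk1 ((hadj v hv w hw hvw).1 h)⟩, ?_⟩
      rw [hcom u hu v hv huv hk1, hcom u hu w hw huw hk1, hcom v hv w hw hvw hk1]
      by_cases hk2 : k = 2
      · exact Or.inl ⟨hk2, hk2, hk2⟩
      · exact Or.inr ⟨hk2, hk2, hk2⟩
  · have h1 := (G.comap φ).sum_degrees_eq_twice_card_edges
    simp only [hdeg, Finset.sum_const, Finset.card_univ, Fintype.card_fin, smul_eq_mul] at h1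
    rw [← SimpleGraph.coe_edgeFinset, Set.ncard_coe_finset]
    omega

/-- `ex_eq(n; 2) = n` for all `n ≥ 4` with `n ≠ 6` (and `ex_eq(n; 2) ≤ n` always). -/
theorem result :
    (∀ (n : ℕ) (G : SimpleGraph (Fin n)), HasEqNumber G 2 → G.edgeSet.ncard ≤ n) ∧
    ∀ n : ℕ, 4 ≤ n → n ≠ 6 → exEq n 2 = n := by
  refine ⟨fun n G hG => upper hG, fun n h4 h6 => ?_⟩
  obtain ⟨G, hG, hGe⟩ := exists_graph (by omega) (P_all n h4 h6)
  refine le_antisymm (csSup_le ⟨n, G, hG, hGe⟩ ?_) (le_csSup ⟨n, ?_⟩ ⟨G, hG, hGe⟩)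
  · rintro e ⟨G, hG, rfl⟩
    exact upper hG
  · rintro e ⟨G, hG, rfl⟩
    exact upper hG

end Pool.Agent.Results.MP_d4bf6a_co.EquidistantTwo
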