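import Mathlib

/-!
# MP_d4bf6a_co: `ex_eq(n; a)` for fixed `a` is linear in `n`, with Ramsey number bounds

For every `a ≥ 1`: `ex_eq(n; a) ≤ n (R(a, a+1) - 1) / 2`, and
`ex_eq(n; a) ≥ ⌊(n - a) / q⌋ q (q - 1) / 4` with `q = R(a+1, a+1) - 1`.
-/

set_option autoImplicit false

namespace Pool.Agent.Results.MP_d4bf6a_co.RamseyBounds

open Finset

/-- `S` is equidistant in `G`: all distances between distinct elements are the same `k ≥ 1`.
(`G.dist u v` is `0` for vertices in different components, so `G.dist u v = k ≥ 1` says that `u, v`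
are at the finite distance `k`.) -/
def IsEquidistant {V : Type*} (G : SimpleGraph V) (S : Finset V) : Prop :=
  ∃ k : ℕ, 1 ≤ k ∧ ∀ u ∈ S, ∀ v ∈ S, u ≠ v → G.dist u v = k

/-- `eq(G) = a`. -/
def HasEqNumber {V : Type*} (G : SimpleGraph V) (a : ℕ) : Prop :=
  IsGreatest {c : ℕ | ∃ S : Finset V, IsEquidistant G S ∧ S.card = c} a

/-- `ex_eq(n; a)`: the maximum number of edges of a graph of order `n` with `eq(G) = a`. -/
noncomputable def exEq (n a : ℕ) : ℕ :=
  sSup {e : ℕ | ∃ G : SimpleGraph (Fin n), HasEqNumber G a ∧ G.edgeSet.ncard = e}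

/-- `N → (p, q)`: every graph on `N` vertices has a clique of size `p` or an independent set of size
`q`; that is, `R(p, q) ≤ N`. -/
def Arrows (N p q : ℕ) : Prop :=
  ∀ H : SimpleGraph (Fin N), (∃ S : Finset (Fin N), S.card = p ∧ ∀ u ∈ S, ∀ v ∈ S, u ≠ v → H.Adj u v) ∨
    ∃ S : Finset (Fin N), S.card = q ∧ ∀ u ∈ S, ∀ v ∈ S, ¬ H.Adj u v

/-! ### Upper bound -/

lemma dist_two {V : Type*} {G : SimpleGraph V} {v x y : V} (hx : G.Adj v x) (hy : G.Adj v y)
    (hxy : x ≠ y) (hn : ¬ G.Adj x y) : G.dist x y = 2 := by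
  have hr : G.Reachable x y := hx.symm.reachable.trans hy.reachable
  have h1 : G.dist x y ≤ 2 := by
    have := SimpleGraph.dist_le (SimpleGraph.Walk.cons hx.symm (SimpleGraph.Walk.cons hy .nil))
    simpa using this
  have h2 : G.dist x y ≠ 0 := fun h => hxy (hr.dist_eq_zero_iff.1 h)
  have h3 : G.dist x y ≠ 1 := fun h => hn (SimpleGraph.dist_eq_one_iff_adj.1 h)
  omega

lemma no_clique {V : Type*} {G : SimpleGraph V} {a : ℕ} (h : HasEqNumber G a) (S : Finset V)
    (hS : ∀ u ∈ S, ∀ v ∈ S, u ≠ v → G.Adj u v) : S.card ≤ a :=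
  h.2 ⟨S, ⟨1, le_rfl, fun u hu v hv huv => SimpleGraph.dist_eq_one_iff_adj.2 (hS u hu v hv huv)⟩, rfl⟩

lemma no_indep {V : Type*} {G : SimpleGraph V} {a : ℕ} (h : HasEqNumber G a) (v : V) (S : Finset V)
    (hv : ∀ u ∈ S, G.Adj v u) (hS : ∀ u ∈ S, ∀ w ∈ S, ¬ G.Adj u w) : S.card ≤ a :=
  h.2 ⟨S, ⟨2, by norm_num, fun u hu w hw huw => dist_two (hv u hu) (hv w hw) huw (hS u hu w hw)⟩, rfl⟩

lemma degree_lt {n a N : ℕ} (hN : Arrows N a (a + 1)) {G : SimpleGraph (Fin n)} [DecidableRel G.Adj]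
    (h : HasEqNumber G a) (v : Fin n) : G.degree v < N := by
  classical
  by_contra hc
  rw [← SimpleGraph.card_neighborFinset_eq_degree] at hc
  obtain ⟨T, hT, hTN⟩ := Finset.exists_subset_card_eq (s := G.neighborFinset v) (n := N) (by omega)
  have hTv : ∀ {x}, x ∈ T → G.Adj v x := fun hx => (G.mem_neighborFinset v _).1 (hT hx)
  let e : Fin N ↪ Fin n := (T.equivFinOfCardEq hTN).symm.toEmbedding.trans (Function.Embedding.subtype _)
  have heT : ∀ i, e i ∈ T := fun i => ((T.equivFinOfCardEq hTN).symm i).2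
  rcases hN (G.comap e) with ⟨S, hSa, hS⟩ | ⟨S, hSa, hS⟩
  · have hv : v ∉ S.map e := by
      intro hm
      obtain ⟨i, -, hi⟩ := Finset.mem_map.1 hm
      have := hTv (heT i)
      rw [hi] at this
      exact G.irrefl this
    have h1 := no_clique h (insert v (S.map e)) (by
      intro u hu w hw huw
      rcases Finset.mem_insert.1 hu with hu1 | hu1
      · rcases Finset.mem_insert.1 hw with hw1 | hw1
        · exact absurd (hu1.trans hw1.symm) huw
        · obtain ⟨i, -, hi⟩ := Finset.mem_map.1 hw1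
          rw [hu1, ← hi]; exact hTv (heT i)
      · obtain ⟨i, hiS, hi⟩ := Finset.mem_map.1 hu1
        rcases Finset.mem_insert.1 hw with hw1 | hw1
        · rw [hw1, ← hi]; exact (hTv (heT i)).symm
        · obtain ⟨j, hjS, hj⟩ := Finset.mem_map.1 hw1
          rw [← hi, ← hj]
          refine hS i hiS j hjS fun hij => huw ?_
          rw [← hi, ← hj, hij])
    rw [Finset.card_insert_of_notMem hv, Finset.card_map, hSa] at h1
    omega
  · have h1 := no_indep h v (S.map e) (by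
      intro u hu
      obtain ⟨i, -, hi⟩ := Finset.mem_map.1 hu
      rw [← hi]; exact hTv (heT i)) (by
      intro u hu w hw
      obtain ⟨i, hiS, hi⟩ := Finset.mem_map.1 hu
      obtain ⟨j, hjS, hj⟩ := Finset.mem_map.1 hw
      rw [← hi, ← hj]
      exact hS i hiS j hjS)
    rw [Finset.card_map, hSa] at h1
    omega

lemma upper {n a N : ℕ} (hN : Arrows N a (a + 1)) {G : SimpleGraph (Fin n)} (h : HasEqNumber G a) :
    2 * G.edgeSet.ncard ≤ n * (N - 1) := by
  classical
  have h1 := G.sum_degrees_eq_twice_card_edges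
  have h2 : ∑ v, G.degree v ≤ ∑ _v : Fin n, (N - 1) :=
    Finset.sum_le_sum fun v _ => by have := degree_lt hN h v; omega
  rw [h1, Finset.sum_const, Finset.card_univ, Fintype.card_fin, smul_eq_mul] at h2
  rw [← SimpleGraph.coe_edgeFinset, Set.ncard_coe_finset]
  exact h2

/-! ### Lower bound -/

section lower

variable {n m q a r : ℕ} (H : SimpleGraph (Fin q))

/-- `m` disjoint copies of `H`, a complete graph on `a` vertices and `r` isolated vertices -/
def adjP : ((Fin m × Fin q) ⊕ (Fin a ⊕ Fin r)) → ((Fin m × Fin q) ⊕ (Fin a ⊕ Fin r)) → Prop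
  | .inl x, .inl y => x.1 = y.1 ∧ H.Adj x.2 y.2
  | .inr (.inl x), .inr (.inl y) => x ≠ y
  | _, _ => False

/-- the block of a vertex -/
def blk : ((Fin m × Fin q) ⊕ (Fin a ⊕ Fin r)) → Fin m ⊕ (Unit ⊕ Fin r)
  | .inl x => .inl x.1
  | .inr (.inl _) => .inr (.inl ())
  | .inr (.inr t) => .inr (.inr t)

lemma adjP_symm {x y : (Fin m × Fin q) ⊕ (Fin a ⊕ Fin r)} (h : adjP H x y) : adjP H y x := by
  rcases x with x | x | x <;> rcases y with y | y | y <;>
    first
    | exact ⟨h.1.symm, h.2.symm⟩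
    | exact Ne.symm h
    | exact h

lemma adjP_irrefl (x : (Fin m × Fin q) ⊕ (Fin a ⊕ Fin r)) : ¬ adjP H x x := by
  rcases x with x | x | x
  · rintro ⟨-, h⟩
    exact H.irrefl h
  · exact fun h => h rfl
  · exact fun h => h

lemma blk_eq {x y : (Fin m × Fin q) ⊕ (Fin a ⊕ Fin r)} (h : adjP H x y) : blk x = blk y := by
  rcases x with x | x | x <;> rcases y with y | y | y <;>
    first
    | exact h.elim
    | exact congrArg Sum.inl h.1
    | rfl

/-- the graph on `Fin n` -/
def GP (φ : Fin n ≃ (Fin m × Fin q) ⊕ (Fin a ⊕ Fin r)) : SimpleGraph (Fin n) where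
  Adj x y := adjP H (φ x) (φ y)
  symm := ⟨fun _ _ h => adjP_symm H h⟩
  loopless := ⟨fun _ h => adjP_irrefl H _ h⟩

lemma reach (φ : Fin n ≃ (Fin m × Fin q) ⊕ (Fin a ⊕ Fin r)) {x y : Fin n}
    (h : (GP H φ).Reachable x y) : blk (φ x) = blk (φ y) := by
  obtain ⟨w⟩ := h
  induction w with
  | nil => rfl
  | cons h _ ih => exact (blk_eq H h).trans ih

lemma lower_card (ha : 1 ≤ a)
    (hc : ∀ S : Finset (Fin q), (∀ u ∈ S, ∀ v ∈ S, u ≠ v → H.Adj u v) → S.card ≤ a)
    (hi : ∀ S : Finset (Fin q), (∀ u ∈ S, ∀ v ∈ S, ¬ H.Adj u v) → S.card ≤ a)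
    (φ : Fin n ≃ (Fin m × Fin q) ⊕ (Fin a ⊕ Fin r)) (S : Finset (Fin n))
    (hS : IsEquidistant (GP H φ) S) : S.card ≤ a := by
  classical
  obtain ⟨k, hk, hd⟩ := hS
  have hr : ∀ u ∈ S, ∀ v ∈ S, blk (φ u) = blk (φ v) := by
    intro u hu v hv
    by_cases huv : u = v
    · rw [huv]
    · have h1 := hd u hu v hv huv
      refine reach H φ ?_
      by_contra hn
      rw [SimpleGraph.dist_eq_zero_of_not_reachable hn] at h1
      omega
  rcases S.eq_empty_or_nonempty with rfl | ⟨x, hx⟩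
  · simp
  have hadj : ∀ u ∈ S, ∀ v ∈ S, u ≠ v → (adjP H (φ u) (φ v) ↔ k = 1) := by
    intro u hu v hv huv
    rw [← hd u hu v hv huv, SimpleGraph.dist_eq_one_iff_adj]
    rfl
  rcases hφ : φ x with ⟨i, j⟩ | t | t
  · -- a copy of `H`
    have hform : ∀ u ∈ S, ∃ j', φ u = Sum.inl (i, j') := by
      intro u hu
      have := hr u hu x hx
      rw [hφ] at this
      rcases hu' : φ u with ⟨i', j'⟩ | t | t
      · rw [hu'] at this
        have h2 : i' = i := Sum.inl_injective this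
        exact ⟨j', by rw [h2]⟩
      · rw [hu'] at this
        exact absurd this (by simp [blk])
      · rw [hu'] at this
        exact absurd this (by simp [blk])
    let c : Fin n → Fin q := fun u => Sum.elim (fun y => y.2) (fun _ => j) (φ u)
    have hcj : ∀ u ∈ S, φ u = Sum.inl (i, c u) := by
      intro u hu
      obtain ⟨j', hj'⟩ := hform u hu
      simp only [c, hj', Sum.elim_inl]
    have hinj : Set.InjOn c S := by
      intro u hu v hv huv
      refine φ.injective ?_
      rw [hcj u hu, hcj v hv, huv]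
    have hcard : (S.image c).card = S.card := Finset.card_image_of_injOn hinj
    have hadj' : ∀ u ∈ S, ∀ v ∈ S, u ≠ v → (H.Adj (c u) (c v) ↔ k = 1) := by
      intro u hu v hv huv
      rw [← hadj u hu v hv huv, hcj u hu, hcj v hv]
      exact ⟨fun h => ⟨rfl, h⟩, fun h => h.2⟩
    rw [← hcard]
    by_cases hk1 : k = 1
    · refine hc _ ?_
      intro p hp q' hq hpq
      obtain ⟨u, hu, rfl⟩ := Finset.mem_image.1 hp
      obtain ⟨v, hv, rfl⟩ := Finset.mem_image.1 hq
      exact (hadj' u hu v hv fun h => hpq (by rw [h])).2 hk1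
    · refine hi _ ?_
      intro p hp q' hq
      obtain ⟨u, hu, rfl⟩ := Finset.mem_image.1 hp
      obtain ⟨v, hv, rfl⟩ := Finset.mem_image.1 hq
      by_cases huv : u = v
      · rw [huv]; exact H.irrefl
      · exact fun h => hk1 ((hadj' u hu v hv huv).1 h)
  · -- the complete graph
    have hform : ∀ u ∈ S, ∃ t', φ u = Sum.inr (Sum.inl t') := by
      intro u hu
      have := hr u hu x hx
      rw [hφ] at this
      rcases hu' : φ u with ⟨i', j'⟩ | t' | t'
      · rw [hu'] at this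
        exact absurd this (by simp [blk])
      · exact ⟨t', rfl⟩
      · rw [hu'] at this
        exact absurd this (by simp [blk])
    let c : Fin n → Fin a := fun u => Sum.elim (fun _ => t) (fun y => Sum.elim (fun z => z) (fun _ => t) y) (φ u)
    have hcj : ∀ u ∈ S, φ u = Sum.inr (Sum.inl (c u)) := by
      intro u hu
      obtain ⟨j', hj'⟩ := hform u hu
      simp only [c, hj', Sum.elim_inl, Sum.elim_inr]
    have hinj : Set.InjOn c S := by
      intro u hu v hv huv
      refine φ.injective ?_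
      rw [hcj u hu, hcj v hv, huv]
    rw [← Finset.card_image_of_injOn hinj]
    exact (Finset.card_le_univ _).trans (by simp)
  · -- an isolated vertex
    have hform : ∀ u ∈ S, u = x := by
      intro u hu
      have := hr u hu x hx
      refine φ.injective ?_
      rw [hφ] at this ⊢
      rcases hu' : φ u with ⟨i', j'⟩ | t' | t'
      · rw [hu'] at this
        exact absurd this (by simp [blk])
      · rw [hu'] at this
        exact absurd this (by simp [blk])
      · rw [hu'] at this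
        have h2 : t' = t := Sum.inr_injective (Sum.inr_injective this)
        rw [h2]
    have : S ⊆ {x} := fun u hu => by simpa using hform u hu
    exact (Finset.card_le_card this).trans (by simpa using ha)

lemma lower_eq (ha : 1 ≤ a)
    (hc : ∀ S : Finset (Fin q), (∀ u ∈ S, ∀ v ∈ S, u ≠ v → H.Adj u v) → S.card ≤ a)
    (hi : ∀ S : Finset (Fin q), (∀ u ∈ S, ∀ v ∈ S, ¬ H.Adj u v) → S.card ≤ a)
    (φ : Fin n ≃ (Fin m × Fin q) ⊕ (Fin a ⊕ Fin r)) : HasEqNumber (GP H φ) a := by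
  refine ⟨?_, ?_⟩
  · let p : Fin a ↪ Fin n := ⟨fun j => φ.symm (.inr (.inl j)), fun j j' h => by
      have := φ.symm.injective h
      exact Sum.inl_injective (Sum.inr_injective this)⟩
    refine ⟨univ.map p, ⟨1, le_rfl, ?_⟩, by simp⟩
    intro u hu w hw huw
    obtain ⟨j, -, rfl⟩ := Finset.mem_map.1 hu
    obtain ⟨j', -, rfl⟩ := Finset.mem_map.1 hw
    rw [SimpleGraph.dist_eq_one_iff_adj]
    change adjP H (φ (φ.symm (.inr (.inl j)))) (φ (φ.symm (.inr (.inl j'))))
    rw [Equiv.apply_symm_apply, Equiv.apply_symm_apply]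
    exact fun h => huw (by rw [h])
  · rintro c ⟨S, hS, rfl⟩
    exact lower_card H ha hc hi φ S hS

lemma lower_edges (φ : Fin n ≃ (Fin m × Fin q) ⊕ (Fin a ⊕ Fin r)) :
    m * H.edgeSet.ncard ≤ (GP H φ).edgeSet.ncard := by
  classical
  have h1 := (GP H φ).sum_degrees_eq_twice_card_edges
  have hdeg : ∀ v, (GP H φ).degree v =
      ∑ y : (Fin m × Fin q) ⊕ (Fin a ⊕ Fin r), if adjP H (φ v) y then 1 else 0 := by
    intro v
    rw [← SimpleGraph.card_neighborFinset_eq_degree, SimpleGraph.neighborFinset_eq_filter,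
      Finset.card_filter, ← Equiv.sum_comp φ]
    rfl
  have h2 : ∑ v, (GP H φ).degree v = ∑ x : (Fin m × Fin q) ⊕ (Fin a ⊕ Fin r),
      ∑ y : (Fin m × Fin q) ⊕ (Fin a ⊕ Fin r), if adjP H x y then 1 else 0 := by
    simp only [hdeg]
    exact Equiv.sum_comp φ fun x => ∑ y : (Fin m × Fin q) ⊕ (Fin a ⊕ Fin r), if adjP H x y then 1 else 0
  have h3 : m * (2 * H.edgeFinset.card) ≤ ∑ x : (Fin m × Fin q) ⊕ (Fin a ⊕ Fin r),
      ∑ y : (Fin m × Fin q) ⊕ (Fin a ⊕ Fin r), (if adjP H x y then 1 else 0) := by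
    rw [Fintype.sum_sum_type]
    refine le_trans ?_ (Nat.le_add_right _ _)
    have e1 : ∀ x : Fin m × Fin q, H.degree x.2 ≤ ∑ y : (Fin m × Fin q) ⊕ (Fin a ⊕ Fin r),
        (if adjP H (Sum.inl x) y then 1 else 0) := by
      intro x
      rw [Fintype.sum_sum_type]
      refine le_trans ?_ (Nat.le_add_right _ _)
      rw [Fintype.sum_prod_type]
      have e3 : H.degree x.2 = ∑ j : Fin q,
          (if adjP (a := a) (r := r) H (Sum.inl x) (Sum.inl (x.1, j)) then 1 else 0) := by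
        rw [← SimpleGraph.card_neighborFinset_eq_degree, SimpleGraph.neighborFinset_eq_filter,
          Finset.card_filter]
        refine Finset.sum_congr rfl fun j _ => ?_
        simp only [adjP, true_and]
      rw [e3]
      exact Finset.single_le_sum (f := fun i => ∑ j : Fin q,
          (if adjP (a := a) (r := r) H (Sum.inl x) (Sum.inl (i, j)) then 1 else 0))
        (fun i _ => Nat.zero_le _) (Finset.mem_univ x.1)
    refine le_trans (le_of_eq ?_) (Finset.sum_le_sum fun x _ => e1 x)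
    rw [Fintype.sum_prod_type]
    simp only [H.sum_degrees_eq_twice_card_edges]
    simp
  rw [h2] at h1
  rw [h1] at h3
  rw [← SimpleGraph.coe_edgeFinset, Set.ncard_coe_finset, ← SimpleGraph.coe_edgeFinset,
    Set.ncard_coe_finset]
  nlinarith

end lower

/-- a graph without large cliques and independent sets and with at least half of all pairs -/
lemma exists_H {q a : ℕ} (hq : ¬ Arrows q (a + 1) (a + 1)) : ∃ H : SimpleGraph (Fin q),
    (∀ S : Finset (Fin q), (∀ u ∈ S, ∀ v ∈ S, u ≠ v → H.Adj u v) → S.card ≤ a) ∧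
    (∀ S : Finset (Fin q), (∀ u ∈ S, ∀ v ∈ S, ¬ H.Adj u v) → S.card ≤ a) ∧
    q * (q - 1) ≤ 4 * H.edgeSet.ncard := by
  classical
  rw [Arrows] at hq
  push Not at hq
  obtain ⟨H, h1, h2⟩ := hq
  have hc : ∀ S : Finset (Fin q), (∀ u ∈ S, ∀ v ∈ S, u ≠ v → H.Adj u v) → S.card ≤ a := by
    intro S hS
    by_contra hlt
    obtain ⟨T, hT, hT4⟩ := Finset.exists_subset_card_eq (s := S) (n := a + 1) (by omega)
    obtain ⟨u, hu, v, hv, huv, hn⟩ := h1 T hT4
    exact hn (hS u (hT hu) v (hT hv) huv)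
  have hi : ∀ S : Finset (Fin q), (∀ u ∈ S, ∀ v ∈ S, ¬ H.Adj u v) → S.card ≤ a := by
    intro S hS
    by_contra hlt
    obtain ⟨T, hT, hT4⟩ := Finset.exists_subset_card_eq (s := S) (n := a + 1) (by omega)
    obtain ⟨u, hu, v, hv, hn⟩ := h2 T hT4
    exact hS u (hT hu) v (hT hv) hn
  have hsum : H.edgeSet.ncard + Hᶜ.edgeSet.ncard = q.choose 2 := by
    rw [← SimpleGraph.coe_edgeFinset, ← SimpleGraph.coe_edgeFinset, Set.ncard_coe_finset,
      Set.ncard_coe_finset]
    have h3 : H.edgeFinset ∪ Hᶜ.edgeFinset = (⊤ : SimpleGraph (Fin q)).edgeFinset := by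
      ext e
      simp only [Finset.mem_union, SimpleGraph.mem_edgeFinset]
      rw [← Set.mem_union, ← SimpleGraph.edgeSet_sup, sup_compl_eq_top]
    have h4 : Disjoint H.edgeFinset Hᶜ.edgeFinset := by
      rw [SimpleGraph.disjoint_edgeFinset]
      exact disjoint_compl_right
    rw [← Finset.card_union_of_disjoint h4, h3, SimpleGraph.card_edgeFinset_top_eq_card_choose_two,
      Fintype.card_fin]
  have hch : 2 * q.choose 2 = q * (q - 1) := by
    rw [Nat.choose_two_right, Nat.mul_div_cancel' (Nat.even_mul_pred_self q).two_dvd]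
  by_cases hle : Hᶜ.edgeSet.ncard ≤ H.edgeSet.ncard
  · exact ⟨H, hc, hi, by omega⟩
  · refine ⟨Hᶜ, fun S hS => hi S ?_, fun S hS => hc S ?_, by omega⟩
    · intro u hu v hv h
      have huv : u ≠ v := h.ne
      exact ((SimpleGraph.compl_adj _ _ _).1 (hS u hu v hv huv)).2 h
    · intro u hu v hv huv
      by_contra hn
      exact hS u hu v hv ((SimpleGraph.compl_adj _ _ _).2 ⟨huv, hn⟩)

/-- For every `a ≥ 1`: if `R(a, a+1) ≤ N` then `ex_eq(n; a) ≤ n (N - 1) / 2` for all `n ≥ a`, and if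
`q < R(a+1, a+1)` then `ex_eq(n; a) ≥ ⌊(n - a) / q⌋ q (q - 1) / 4` for all `n ≥ a`. -/
theorem result (a : ℕ) (ha : 1 ≤ a) :
    (∀ N : ℕ, Arrows N a (a + 1) → (∀ (n : ℕ) (G : SimpleGraph (Fin n)), HasEqNumber G a →
      2 * G.edgeSet.ncard ≤ n * (N - 1)) ∧ ∀ n : ℕ, a ≤ n → 2 * exEq n a ≤ n * (N - 1)) ∧
    ∀ q : ℕ, 1 ≤ q → ¬ Arrows q (a + 1) (a + 1) → ∀ n : ℕ, a ≤ n →
      (n - a) / q * (q * (q - 1)) ≤ 4 * exEq n a := by
  have hbdd : ∀ n, BddAbove {e : ℕ | ∃ G : SimpleGraph (Fin n), HasEqNumber G a ∧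
      G.edgeSet.ncard = e} := by
    classical
    intro n
    refine ⟨Nat.card (Sym2 (Fin n)), ?_⟩
    rintro e ⟨G, -, rfl⟩
    rw [← Set.ncard_univ]
    exact Set.ncard_le_ncard (Set.subset_univ _) (Set.toFinite _)
  have hne : ∀ n, a ≤ n → ({e : ℕ | ∃ G : SimpleGraph (Fin n), HasEqNumber G a ∧
      G.edgeSet.ncard = e}).Nonempty := by
    intro n hn
    let φ : Fin n ≃ (Fin 0 × Fin 1) ⊕ (Fin a ⊕ Fin (n - a)) := Fintype.equivOfCardEq (by
      simp; omega)
    refine ⟨_, GP (⊥ : SimpleGraph (Fin 1)) φ, lower_eq _ ha ?_ ?_ φ, rfl⟩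
    · intro S _
      exact (Finset.card_le_univ _).trans (by simpa using ha)
    · intro S _
      exact (Finset.card_le_univ _).trans (by simpa using ha)
  refine ⟨fun N hN => ⟨fun n G hG => upper hN hG, fun n hn => ?_⟩, fun q hq0 hq n hn => ?_⟩
  · obtain ⟨G, hG, hGe⟩ := Nat.sSup_mem (hne n hn) (hbdd n)
    have := upper hN hG
    rw [hGe] at this
    exact this
  · obtain ⟨H, hc, hi, hH⟩ := exists_H hq
    let φ : Fin n ≃ (Fin ((n - a) / q) × Fin q) ⊕ (Fin a ⊕ Fin ((n - a) % q)) :=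
      Fintype.equivOfCardEq (by
        simp only [Fintype.card_fin, Fintype.card_sum, Fintype.card_prod]
        have := Nat.div_add_mod (n - a) q
        rw [mul_comm] at this
        omega)
    have h1 : (GP H φ).edgeSet.ncard ≤ exEq n a := le_csSup (hbdd n) ⟨_, lower_eq H ha hc hi φ, rfl⟩
    have h2 := lower_edges H φ
    have h3 : (n - a) / q * (q * (q - 1)) ≤ (n - a) / q * (4 * H.edgeSet.ncard) :=
      Nat.mul_le_mul_left _ hH
    nlinarith

end Pool.Agent.Results.MP_d4bf6a_co.RamseyBounds
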