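import Mathlib

/-!
# MP_d4bf6a_co: the range in which the Turán bound is attained

For `2 ≤ a ≤ n`: `ex_eq(n; a)` equals the number of edges of the Turán graph `T(n, a)` if and only
if `n ≤ a²`.
-/

set_option autoImplicit false

namespace Pool.Agent.Results.MP_d4bf6a_co.TuranRange

open Finset

/-- `S` is equidistant in `G`: all distances between distinct elements are the same `k ≥ 1`.
(`G.dist u v` is `0` for vertices in different components, so `G.dist u v = k ≥ 1` says that `u, v`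
are at the finite distance `k`.) -/
def IsEquidistant {V : Type*} (G : SimpleGraph V) (S : Finset V) : Prop :=
  ∃ k : ℕ, 1 ≤ k ∧ ∀ u ∈ S, ∀ v ∈ S, u ≠ v → G.dist u v = k

/-- `eq(G) = a`. -/
def HasEqNumber {V : Type*} (G : SimpleGraph V) (a : ℕ) : Prop :=
  IsGreatest {c : ℕ | ∃ S : Finset V, IsEquidistant G S ∧ S.card = c} a

/-- `ex_eq(n; a)`: the maximum number of edges of a graph of order `n` with `eq(G) = a`. -/
noncomputable def exEq (n a : ℕ) : ℕ :=
  sSup {e : ℕ | ∃ G : SimpleGraph (Fin n), HasEqNumber G a ∧ G.edgeSet.ncard = e}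

/-! ### Proof -/

lemma dist_two {V : Type*} {G : SimpleGraph V} {v x y : V} (hx : G.Adj v x) (hy : G.Adj v y)
    (hxy : x ≠ y) (hn : ¬ G.Adj x y) : G.dist x y = 2 := by
  have hr : G.Reachable x y := hx.symm.reachable.trans hy.reachable
  have h1 : G.dist x y ≤ 2 := by
    have := SimpleGraph.dist_le (SimpleGraph.Walk.cons hx.symm (SimpleGraph.Walk.cons hy .nil))
    simpa using this
  have h2 : G.dist x y ≠ 0 := fun h => hxy (hr.dist_eq_zero_iff.1 h)
  have h3 : G.dist x y ≠ 1 := fun h => hn (SimpleGraph.dist_eq_one_iff_adj.1 h)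
  omega

lemma cliqueFree {n a : ℕ} {G : SimpleGraph (Fin n)} (h : HasEqNumber G a) :
    G.CliqueFree (a + 1) := by
  intro S hS
  have h1 : S.card ≤ a := h.2 ⟨S, ⟨1, le_rfl, fun u hu v hv huv =>
    SimpleGraph.dist_eq_one_iff_adj.2 (hS.isClique hu hv huv)⟩, rfl⟩
  rw [hS.card_eq] at h1
  omega

lemma ncard_eq {n : ℕ} (G : SimpleGraph (Fin n)) [DecidableRel G.Adj] :
    G.edgeSet.ncard = #G.edgeFinset := by
  rw [← SimpleGraph.coe_edgeFinset, Set.ncard_coe_finset]

lemma upper {n a : ℕ} (ha : 0 < a) {G : SimpleGraph (Fin n)} (h : HasEqNumber G a) :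
    G.edgeSet.ncard ≤ (SimpleGraph.turanGraph n a).edgeSet.ncard := by
  classical
  rw [ncard_eq, ncard_eq]
  exact (SimpleGraph.isTuranMaximal_turanGraph (n := n) ha).2 (cliqueFree h)

lemma turan_eq {n a : ℕ} (ha : 2 ≤ a) (han : a ≤ n) (hn : n ≤ a ^ 2) :
    HasEqNumber (SimpleGraph.turanGraph n a) a := by
  refine ⟨?_, ?_⟩
  · let p : Fin a ↪ Fin n := ⟨fun j => ⟨j, j.2.trans_le han⟩, fun j j' h => by
      rw [Fin.mk.injEq] at h; exact Fin.ext h⟩
    refine ⟨univ.map p, ⟨1, le_rfl, ?_⟩, by simp⟩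
    intro u hu w hw huw
    obtain ⟨j, -, rfl⟩ := Finset.mem_map.1 hu
    obtain ⟨j', -, rfl⟩ := Finset.mem_map.1 hw
    rw [SimpleGraph.dist_eq_one_iff_adj, SimpleGraph.turanGraph_adj]
    change (j : ℕ) % a ≠ (j' : ℕ) % a
    rw [Nat.mod_eq_of_lt j.2, Nat.mod_eq_of_lt j'.2]
    exact fun h => huw (by rw [Fin.ext h])
  · rintro c ⟨S, ⟨k, hk, hd⟩, rfl⟩
    by_cases hk1 : k = 1
    · by_contra hc
      obtain ⟨T, hT, hTa⟩ := Finset.exists_subset_card_eq (s := S) (n := a + 1) (by omega)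
      refine SimpleGraph.turanGraph_cliqueFree (n := n) (r := a) (by omega) T ⟨?_, hTa⟩
      intro u hu v hv huv
      have := hd u (hT hu) v (hT hv) huv
      rw [hk1] at this
      exact SimpleGraph.dist_eq_one_iff_adj.1 this
    · have hmod : ∀ u ∈ S, ∀ v ∈ S, (u : ℕ) % a = (v : ℕ) % a := by
        intro u hu v hv
        by_cases huv : u = v
        · rw [huv]
        · by_contra hne
          refine hk1 ?_
          rw [← hd u hu v hv huv, SimpleGraph.dist_eq_one_iff_adj, SimpleGraph.turanGraph_adj]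
          exact hne
      have hlt : ∀ u : Fin n, (u : ℕ) / a < a := fun u => by
        rw [Nat.div_lt_iff_lt_mul (by omega)]
        have := u.2
        rw [sq] at hn
        omega
      have hinj : Set.InjOn (fun u : Fin n => (⟨(u : ℕ) / a, hlt u⟩ : Fin a)) S := by
        intro u hu v hv huv
        simp only [Fin.mk.injEq] at huv
        refine Fin.ext ?_
        rw [← Nat.div_add_mod (u : ℕ) a, ← Nat.div_add_mod (v : ℕ) a, huv, hmod u hu v hv]
      rw [← Finset.card_image_of_injOn hinj]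
      exact (Finset.card_le_univ _).trans (by simp)

lemma edges_pos {n a : ℕ} (ha : 2 ≤ a) (han : a ≤ n) :
    0 < (SimpleGraph.turanGraph n a).edgeSet.ncard := by
  rw [Set.ncard_pos (Set.toFinite _)]
  refine ⟨s(⟨0, by omega⟩, ⟨1, by omega⟩), ?_⟩
  rw [SimpleGraph.mem_edgeSet, SimpleGraph.turanGraph_adj]
  change 0 % a ≠ 1 % a
  rw [Nat.zero_mod, Nat.mod_eq_of_lt (by omega)]
  norm_num

lemma no_iso {n a : ℕ} (ha : 2 ≤ a) (hn : a ^ 2 < n) {G : SimpleGraph (Fin n)}
    (hG : HasEqNumber G a) (f : G ≃g SimpleGraph.turanGraph n a) : False := by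
  have h1n : 1 < n := lt_of_le_of_lt (Nat.one_le_pow _ _ (by omega)) hn
  let p : Fin (a + 1) ↪ Fin n := ⟨fun j => f.symm ⟨a * j, by
      have := j.2
      have h2 : a * (j : ℕ) ≤ a * a := Nat.mul_le_mul_left a (by omega)
      rw [← sq] at h2
      omega⟩, fun j j' h => by
      have := f.symm.injective h
      rw [Fin.mk.injEq] at this
      exact Fin.ext (Nat.eq_of_mul_eq_mul_left (by omega) this)⟩
  have h1 : (univ.map p).card ≤ a := hG.2 ⟨univ.map p, ⟨2, by norm_num, ?_⟩, rfl⟩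
  · simp at h1
  intro u hu w hw huw
  obtain ⟨j, -, rfl⟩ := Finset.mem_map.1 hu
  obtain ⟨j', -, rfl⟩ := Finset.mem_map.1 hw
  have hadj : ∀ i, G.Adj (f.symm ⟨1, h1n⟩) (p i) := by
    intro i
    refine f.symm.map_adj_iff.2 ?_
    rw [SimpleGraph.turanGraph_adj]
    change 1 % a ≠ (a * (i : ℕ)) % a
    rw [Nat.mul_mod_right, Nat.mod_eq_of_lt (by omega)]
    norm_num
  refine dist_two (hadj j) (hadj j') huw fun h => ?_
  have h2 := f.symm.map_adj_iff.1 h
  rw [SimpleGraph.turanGraph_adj] at h2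
  refine h2 ?_
  change (a * (j : ℕ)) % a = (a * (j' : ℕ)) % a
  rw [Nat.mul_mod_right, Nat.mul_mod_right]

/-- For `2 ≤ a ≤ n`: `ex_eq(n; a) ≤ |E(T(n, a))|` with equality if and only if `n ≤ a²`. -/
theorem result (n a : ℕ) (ha : 2 ≤ a) (han : a ≤ n) :
    exEq n a ≤ (SimpleGraph.turanGraph n a).edgeSet.ncard ∧
    (exEq n a = (SimpleGraph.turanGraph n a).edgeSet.ncard ↔ n ≤ a ^ 2) := by
  classical
  have hbdd : BddAbove {e : ℕ | ∃ G : SimpleGraph (Fin n), HasEqNumber G a ∧
      G.edgeSet.ncard = e} := ⟨_, by rintro e ⟨G, hG, rfl⟩; exact upper (by omega) hG⟩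
  have hle : exEq n a ≤ (SimpleGraph.turanGraph n a).edgeSet.ncard := by
    rcases Set.eq_empty_or_nonempty {e : ℕ | ∃ G : SimpleGraph (Fin n), HasEqNumber G a ∧
      G.edgeSet.ncard = e} with h | h
    · rw [exEq, h, csSup_empty]
      exact Nat.zero_le _
    · refine csSup_le h ?_
      rintro e ⟨G, hG, rfl⟩
      exact upper (by omega) hG
  refine ⟨hle, fun h => ?_, fun h => ?_⟩
  · by_contra hlt
    rcases Set.eq_empty_or_nonempty {e : ℕ | ∃ G : SimpleGraph (Fin n), HasEqNumber G a ∧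
      G.edgeSet.ncard = e} with h0 | h0
    · rw [exEq, h0, csSup_empty] at h
      have := edges_pos ha han
      simp only [bot_eq_zero'] at h
      omega
    · obtain ⟨G, hG, hGe⟩ := Nat.sSup_mem h0 hbdd
      have hGT : G.edgeSet.ncard = (SimpleGraph.turanGraph n a).edgeSet.ncard := hGe.trans h
      have hmax : G.IsTuranMaximal a := by
        refine ⟨cliqueFree hG, ?_⟩
        intro G' _ hG'
        rw [← ncard_eq G, hGT, ncard_eq]
        exact (SimpleGraph.isTuranMaximal_turanGraph (n := n) (by omega)).2 hG'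
      obtain ⟨f⟩ := (SimpleGraph.isTuranMaximal_iff_nonempty_iso_turanGraph (by omega)).1 hmax
      rw [Fintype.card_fin] at f
      exact no_iso ha (by omega) hG f
  · exact le_antisymm hle (le_csSup hbdd ⟨_, turan_eq ha han h, rfl⟩)

end Pool.Agent.Results.MP_d4bf6a_co.TuranRange
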